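import Mathlib

/-! Counting neighbouring points that lie in the same cell. -/

open Finset

namespace Pool.Agent.V8H24.NS

lemma ncard_Ioc (a b : ℕ) : (Set.Ioc a b).ncard = b - a := by
  rw [← Finset.coe_Ioc, Set.ncard_coe_finset, Nat.card_Ioc]

lemma ncard_Icc (b : ℕ) : (Set.Icc 1 b).ncard = b := by
  rw [← Finset.coe_Icc, Set.ncard_coe_finset, Nat.card_Icc]
  omega

/-- in each cell the last point has no successor in the cell -/
lemma adj_card (D A : Finset ℝ) (hAD : A ⊆ D) (c : ℝ → ℤ) (nx : ℝ → ℝ)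
    (h : ∀ y ∈ A, nx y ∈ D ∧ y < nx y ∧ c (nx y) = c y) :
    A.card + (D.image c).card ≤ D.card := by
  classical
  have h1 : D.image c ⊆ (D \ A).image c := by
    intro k hk
    rw [Finset.mem_image] at hk
    obtain ⟨y, hy, rfl⟩ := hk
    have hne : (D.filter (fun z => c z = c y)).Nonempty := ⟨y, Finset.mem_filter.2 ⟨hy, rfl⟩⟩
    have hm := (D.filter (fun z => c z = c y)).max'_mem hne
    rw [Finset.mem_filter] at hm
    rw [Finset.mem_image]
    refine ⟨_, Finset.mem_sdiff.2 ⟨hm.1, fun hA => ?_⟩, hm.2⟩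
    obtain ⟨a1, a2, a3⟩ := h _ hA
    have := (D.filter (fun z => c z = c y)).le_max' _ (Finset.mem_filter.2 ⟨a1, a3.trans hm.2⟩)
    linarith
  have h2 := (Finset.card_le_card h1).trans Finset.card_image_le
  have h3 := Finset.card_sdiff_add_card_eq_card hAD
  omega

/-- a short interval is cut by at most one of the shifted grids -/
lemma shift_one (m : ℕ) (hm : 1 ≤ m) (a b : ℝ) (hab : a < b) (hb : b < a + 1 / m) :
    ((range m).filter (fun j : ℕ => ⌊b + j / m⌋ ≠ ⌊a + j / m⌋)).card ≤ 1 := by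
  classical
  rw [Finset.card_le_one]
  have hm0 : (0 : ℝ) < m := by exact_mod_cast hm
  have key : ∀ j : ℕ, ⌊b + j / m⌋ ≠ ⌊a + j / m⌋ → ∃ k : ℤ, a * m < m * k - j ∧
      (m * k - j : ℝ) ≤ b * m := by
    intro j hj
    have h1 : ⌊a + (j : ℝ) / m⌋ ≤ ⌊b + (j : ℝ) / m⌋ := Int.floor_le_floor (by linarith)
    have h2 : ⌊a + (j : ℝ) / m⌋ < ⌊b + (j : ℝ) / m⌋ := lt_of_le_of_ne h1 (Ne.symm hj)
    refine ⟨⌊b + (j : ℝ) / m⌋, ?_, ?_⟩
    · have h3 := Int.floor_lt.1 h2
      have h4 : (a + (j : ℝ) / m) * m < (⌊b + (j : ℝ) / m⌋ : ℝ) * m :=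
        mul_lt_mul_of_pos_right h3 hm0
      have h5 : (a + (j : ℝ) / m) * m = a * m + j := by field_simp
      linarith
    · have h3 := Int.floor_le (b + (j : ℝ) / m)
      have h4 : (⌊b + (j : ℝ) / m⌋ : ℝ) * m ≤ (b + (j : ℝ) / m) * m :=
        mul_le_mul_of_nonneg_right h3 hm0.le
      have h5 : (b + (j : ℝ) / m) * m = b * m + j := by field_simp
      linarith
  have hbm : b * m < a * m + 1 := by
    have : b * m < (a + 1 / m) * m := mul_lt_mul_of_pos_right hb hm0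
    have h5 : (a + 1 / (m : ℝ)) * m = a * m + 1 := by field_simp
    linarith
  intro i hi j hj
  rw [Finset.mem_filter, Finset.mem_range] at hi hj
  obtain ⟨k, hk1, hk2⟩ := key i hi.2
  obtain ⟨l, hl1, hl2⟩ := key j hj.2
  have e1 : ((m * k - i : ℤ) : ℝ) < ((m * l - j : ℤ) : ℝ) + 1 := by push_cast; linarith
  have e2 : ((m * l - j : ℤ) : ℝ) < ((m * k - i : ℤ) : ℝ) + 1 := by push_cast; linarith
  have e3 : (m * k - i : ℤ) < (m * l - j : ℤ) + 1 := by exact_mod_cast e1
  have e4 : (m * l - j : ℤ) < (m * k - i : ℤ) + 1 := by exact_mod_cast e2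
  have e5 : (m * k - i : ℤ) = m * l - j := by omega
  have e6 : (m : ℤ) * (k - l) = i - j := by linear_combination e5
  have hi1 : (i : ℤ) < m := by exact_mod_cast hi.1
  have hj1 : (j : ℤ) < m := by exact_mod_cast hj.1
  have hkl : k - l = 0 := by
    by_contra hne
    rcases lt_or_gt_of_ne hne with h | h
    · have : k - l ≤ -1 := by omega
      nlinarith
    · have : 1 ≤ k - l := by omega
      nlinarith
  rw [hkl, mul_zero] at e6
  omega

/-- a good shift of the grid -/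
lemma offsets (B : Finset ℝ) (nx : ℝ → ℝ) (w : ℝ) (hw : 0 < w) (m : ℕ) (hm : 1 ≤ m)
    (h : ∀ y ∈ B, y < nx y ∧ nx y < y + w / m) :
    ∃ j : ℕ, ((m : ℝ) - 1) * B.card ≤
      m * ((B.filter (fun y => ⌊nx y / w + j / m⌋ = ⌊y / w + j / m⌋)).card : ℝ) := by
  classical
  by_contra hcon
  push Not at hcon
  have hm0 : (0 : ℝ) < m := by exact_mod_cast hm
  have h1 : ∑ j ∈ range m, ((B.filter (fun y => ⌊nx y / w + j / m⌋ = ⌊y / w + j / m⌋)).card : ℝ) =
      ∑ y ∈ B, (((range m).filter (fun j : ℕ => ⌊nx y / w + j / m⌋ = ⌊y / w + j / m⌋)).card : ℝ) := by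
    simp only [Finset.card_filter, Nat.cast_sum]
    rw [Finset.sum_comm]
  have h2 : ∀ y ∈ B, ((m : ℝ) - 1) ≤
      (((range m).filter (fun j : ℕ => ⌊nx y / w + j / m⌋ = ⌊y / w + j / m⌋)).card : ℝ) := by
    intro y hy
    obtain ⟨a1, a2⟩ := h y hy
    have h3 := shift_one m hm (y / w) (nx y / w) (by gcongr) (by
      rw [div_lt_iff₀ hw]
      have : (y / w + 1 / m) * w = y + w / m := by field_simp
      rw [this]; exact a2)
    have h4 := Finset.card_filter_add_card_filter_not (s := range m)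
      (fun j : ℕ => ⌊nx y / w + j / m⌋ = ⌊y / w + j / m⌋)
    rw [Finset.card_range] at h4
    have h5 : m ≤ ((range m).filter (fun j : ℕ => ⌊nx y / w + j / m⌋ = ⌊y / w + j / m⌋)).card + 1 := by
      have h6 : ((range m).filter (fun j : ℕ => ¬ ⌊nx y / w + j / m⌋ = ⌊y / w + j / m⌋)).card ≤ 1 := h3
      omega
    have h7 : (m : ℝ) ≤
      (((range m).filter (fun j : ℕ => ⌊nx y / w + j / m⌋ = ⌊y / w + j / m⌋)).card : ℝ) + 1 := by
      exact_mod_cast h5
    linarith
  have h3 : ((m : ℝ) - 1) * B.card ≤ ∑ j ∈ range m,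
      ((B.filter (fun y => ⌊nx y / w + j / m⌋ = ⌊y / w + j / m⌋)).card : ℝ) := by
    rw [h1, mul_comm, ← nsmul_eq_mul, ← Finset.sum_const]
    exact Finset.sum_le_sum h2
  have h4 : ∑ j ∈ range m, (m : ℝ) *
      ((B.filter (fun y => ⌊nx y / w + j / m⌋ = ⌊y / w + j / m⌋)).card : ℝ) <
      ∑ j ∈ range m, ((m : ℝ) - 1) * B.card := by
    apply Finset.sum_lt_sum_of_nonempty (by simpa using (by omega : m ≠ 0))
    intro j _
    exact hcon j
  rw [← Finset.mul_sum, Finset.sum_const, Finset.card_range, nsmul_eq_mul] at h4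
  nlinarith

end Pool.Agent.V8H24.NS
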