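import Pool.Agent.H143R2.TraceG
import Pool.Agent.H295R2.Iso.A

/-! Kernel bounds, zero sets and windows (the lemmas below are copied from the starting files
`Pool.Agent.TH803.CL.Ker`, `Zer`, `Win`, in order to have a smaller import closure). -/

open Complex Filter Topology Set MeasureTheory
open scoped BigOperators ComplexConjugate

namespace Pool.Agent.V8H24.NS.Cp

open H370 H295SI

lemma kap_one {g : ℝ → ℝ} (hg : Win g) {v : ℂ} {R : ℝ} (hR : R ≤ 2) (hv : ‖v‖ ≤ R) :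
    ‖kapG g v - 1‖ ≤ R ^ 2 / 4 := by
  have hgc := hg.cont
  have hR0 : 0 ≤ R := (norm_nonneg v).trans hv
  set G : ℝ → ℂ := fun y => (g y : ℂ) * ((cexp (I * v * y) - 1 - I * v * y) +
    (cexp (I * (-v) * y) - 1 - I * (-v) * y)) with hG
  have hint : ∀ f : ℝ → ℂ, Continuous f → IntervalIntegrable f volume (-1 / 2) (1 / 2) :=
    fun f hf => hf.intervalIntegrable _ _
  have e1 : (kapG g v + kapG g (-v)) - 2 = ∫ y in (-1 / 2 : ℝ)..(1 / 2), G y := by
    have h1 : ∫ y in (-1 / 2 : ℝ)..(1 / 2), G y =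
        ∫ y in (-1 / 2 : ℝ)..(1 / 2), (((g y : ℂ) * cexp (I * v * y) +
          (g y : ℂ) * cexp (I * (-v) * y)) - 2 * (g y : ℂ)) := by
      congr 1
      ext y
      simp only [hG]
      ring
    have h2 : ∫ y in (-1 / 2 : ℝ)..(1 / 2), 2 * (g y : ℂ) = 2 := by
      rw [intervalIntegral.integral_const_mul, intervalIntegral.integral_ofReal, hg.mass]
      norm_num
    rw [h1, intervalIntegral.integral_sub, intervalIntegral.integral_add, h2]
    · rfl
    · exact hint _ (by fun_prop)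
    · exact hint _ (by fun_prop)
    · exact hint _ (by fun_prop)
    · exact hint _ (by fun_prop)
  have h3 : ‖∫ y in (-1 / 2 : ℝ)..(1 / 2), G y‖ ≤ R ^ 2 / 2 := by
    refine (intervalIntegral.norm_integral_le_integral_norm (by norm_num)).trans ?_
    have h4 : ∫ y in (-1 / 2 : ℝ)..(1 / 2), ‖G y‖ ≤
        ∫ y in (-1 / 2 : ℝ)..(1 / 2), g y * (R ^ 2 / 2) := by
      refine intervalIntegral.integral_mono_on (by norm_num) ?_ ?_ fun y hy => ?_
      · exact (by simp only [hG]; fun_prop : Continuous fun y : ℝ => ‖G y‖).intervalIntegrable _ _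
      · exact (hgc.mul continuous_const).intervalIntegrable _ _
      · have hg0 := hg.nonneg y (by linarith [hy.1]) hy.2
        simp only [hG]
        rw [norm_mul, Complex.norm_real, Real.norm_of_nonneg hg0]
        apply mul_le_mul_of_nonneg_left _ hg0
        have hy2 : |y| ≤ 1 / 2 := by rw [abs_le]; constructor <;> linarith [hy.1, hy.2]
        have b : ∀ w : ℂ, ‖w‖ ≤ R → ‖cexp (I * w * y) - 1 - I * w * y‖ ≤ R ^ 2 / 4 := by
          intro w hw
          have b1 : ‖I * w * y‖ ≤ R / 2 := by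
            rw [norm_mul, norm_mul, Complex.norm_I, one_mul, Complex.norm_real, Real.norm_eq_abs]
            calc ‖w‖ * |y| ≤ R * (1 / 2) := by gcongr
              _ = R / 2 := by ring
          refine (Complex.norm_exp_sub_one_sub_id_le (b1.trans (by linarith))).trans ?_
          calc ‖I * w * y‖ ^ 2 ≤ (R / 2) ^ 2 := by gcongr
            _ = R ^ 2 / 4 := by ring
        refine (norm_add_le _ _).trans ?_
        have b1 := b v hv
        have b2 := b (-v) (by rwa [norm_neg])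
        linarith
    refine h4.trans (le_of_eq ?_)
    rw [intervalIntegral.integral_mul_const, hg.mass, one_mul]
  have h5 : kapG g v - 1 = (1 / 2 : ℂ) * ((kapG g v + kapG g (-v)) - 2) := by
    rw [H143TG.kapG_even hg]; ring
  rw [h5, e1, norm_mul]
  have h6 : ‖(1 / 2 : ℂ)‖ = 1 / 2 := by norm_num
  rw [h6]
  linarith

/-- the kernel near the origin -/
lemma phi_one {g : ℝ → ℝ} (hg : Win g) {Λ L R : ℝ} (hΛ : 0 ≤ Λ) (hΛL : Λ ≤ L) (hL : 10 ≤ L)
    (hR : R ≤ 2) {u : ℂ} (hu : ‖u‖ * L ≤ R) : ‖phiG g Λ u - 1‖ ≤ 51 / 200 * R ^ 2 := by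
  have hu0 := norm_nonneg u
  have h1 : ‖u‖ ≤ R / 10 := by nlinarith
  have hR0 : 0 ≤ R := by linarith
  have h2 : ‖(Λ : ℂ) * u‖ ≤ R := by
    rw [norm_mul, Complex.norm_real, Real.norm_of_nonneg hΛ]
    nlinarith
  have h3 := kap_one hg hR h2
  have hR4 : R ^ 2 ≤ 4 := by nlinarith
  have h4 : ‖-u ^ 2 / 8‖ ≤ R ^ 2 / 800 := by
    rw [norm_div, norm_neg, norm_pow]
    have : ‖(8 : ℂ)‖ = 8 := by norm_num
    rw [this]
    have : ‖u‖ ^ 2 ≤ (R / 10) ^ 2 := by gcongr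
    linarith
  have h5 : ‖cexp (-u ^ 2 / 8) - 1‖ ≤ R ^ 2 / 400 := by
    refine (Complex.norm_exp_sub_one_le (h4.trans (by linarith))).trans ?_
    linarith
  have h6 : ‖kapG g (Λ * u)‖ ≤ 1 + R ^ 2 / 4 := by
    calc ‖kapG g (Λ * u)‖ = ‖(kapG g (Λ * u) - 1) + 1‖ := by congr 1; ring
      _ ≤ ‖kapG g (Λ * u) - 1‖ + ‖(1 : ℂ)‖ := norm_add_le _ _
      _ ≤ 1 + R ^ 2 / 4 := by rw [norm_one]; linarith
  unfold phiG
  calc ‖kapG g (Λ * u) * cexp (-u ^ 2 / 8) - 1‖ =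
      ‖kapG g (Λ * u) * (cexp (-u ^ 2 / 8) - 1) + (kapG g (Λ * u) - 1)‖ := by congr 1; ring
    _ ≤ ‖kapG g (Λ * u)‖ * ‖cexp (-u ^ 2 / 8) - 1‖ + ‖kapG g (Λ * u) - 1‖ := by
      refine (norm_add_le _ _).trans ?_
      rw [norm_mul]
    _ ≤ (1 + R ^ 2 / 4) * (R ^ 2 / 400) + R ^ 2 / 4 := by gcongr
    _ ≤ 51 / 200 * R ^ 2 := by nlinarith [sq_nonneg R]

lemma zz_back (s : ℂ) : (1 / 2 + I * zz s) = s := by
  have := zz_spec s
  linear_combination -this

section

variable {F : ℂ → ℂ} (hF : GoodL F) {A B : ℝ} (hU : 1 ≤ A)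

include hF hU

lemma Zpos : ∀ z ∈ (Zf F A B).image zz, 1 ≤ mult F (1 / 2 + I * z) := by
  intro z hz
  rw [Finset.mem_image] at hz
  obtain ⟨s, hs, rfl⟩ := hz
  rw [zz_back]
  have := (mem_Zf hF hU).mp hs
  exact Loc.mult_pos' hF (by linarith [this.2.2.1]) this.2.2.2.2

lemma Zconj : ∀ z ∈ (Zf F A B).image zz, (starRingEnd ℂ) z ∈ (Zf F A B).image zz := by
  intro z hz
  rw [Finset.mem_image] at hz
  obtain ⟨s, hs, rfl⟩ := hz
  rw [← zz_refl]
  exact Finset.mem_image_of_mem _ ((mem_Zf hF hU).mpr (zset_refl hF hU ((mem_Zf hF hU).mp hs)))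

lemma Zmc : ∀ z ∈ (Zf F A B).image zz, mult F (1 / 2 + I * (starRingEnd ℂ) z) =
    mult F (1 / 2 + I * z) := by
  intro z hz
  rw [Finset.mem_image] at hz
  obtain ⟨s, hs, rfl⟩ := hz
  have := (mem_Zf hF hU).mp hs
  rw [← zz_refl, zz_back, zz_back, mult_refl hF this.1 this.2.1 (by linarith [this.2.2.1])]

lemma ZQ (g : ℝ → ℝ) (Λ : ℝ) : (∑ z ∈ (Zf F A B).image zz, ∑ w ∈ (Zf F A B).image zz,
    ((mult F (1 / 2 + I * z) : ℕ) : ℂ) * ((mult F (1 / 2 + I * w) : ℕ) : ℂ) *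
      (phiG g Λ (z - w)) ^ 2).re = QQG g F Λ A B := by
  rw [H143TG.QQG_eq hF hU, Finset.sum_image (fun s _ s' _ h => zz_inj h)]
  congr 1
  refine Finset.sum_congr rfl fun s _ => ?_
  rw [Finset.sum_image (fun s _ s' _ h => zz_inj h)]
  refine Finset.sum_congr rfl fun s' _ => ?_
  rw [zz_back, zz_back]

end

end Pool.Agent.V8H24.NS.Cp
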