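import Pool.Agent.H295R2.Iso.A

/-! Windows with the pair sum asymptotics (copied from the starting file `Pool.Agent.TH803.CL.Win`,
in order to have a smaller import closure). -/

open Complex Filter Topology Set MeasureTheory
open scoped BigOperators ComplexConjugate

namespace Pool.Agent.V8H24.NS.Cp

open H370 H295SI

/-- few zeros near the ends -/
theorem ends2 {F : ℂ → ℂ} (hF : GoodL F) : ∃ C : ℝ, 0 < C ∧ ∀ T : ℝ, 10 ≤ T → ∀ H : ℝ, 6 ≤ H →
    H ≤ T → (NN F T (T + H) : ℝ) ≤ NN F (T + 2) (T + H - 2) + C * Real.log T := by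
  obtain ⟨C, hC, h⟩ := H965SI.countShort F hF
  refine ⟨3 * C, by positivity, fun T hT H hH hHT => ?_⟩
  have h1 := (h T hT H (by linarith) hHT (T + 1) (T + H - 1) (by linarith) le_rfl le_rfl
    (by linarith)).2
  have h2 := (h (T + 1) (by linarith) (H - 2) (by linarith) (by linarith) (T + 2) (T + H - 2)
    (by linarith) (by linarith) (by linarith) (by linarith)).2
  have e1 : T + 1 + (H - 2) = T + H - 1 := by ring
  rw [e1] at h2
  have h3 : Real.log (T + 1) ≤ 2 * Real.log T := by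
    have : Real.log (T + 1) ≤ Real.log (T ^ 2) := Real.log_le_log (by linarith) (by nlinarith)
    rwa [Real.log_pow, Nat.cast_ofNat] at this
  have h4 : C * Real.log (T + 1) ≤ C * (2 * Real.log T) := by gcongr
  linarith

/-- **windows** -/
theorem windows {F : ℂ → ℂ} (hF : GoodL F) (h ε E : ℝ) (hh0 : 0 < h)
    (hh1 : h ≤ 1) (hε : 0 < ε) (hE : 0 ≤ E) :
    ∃ T0 : ℝ, 10 ≤ T0 ∧ ∀ T : ℝ, T0 ≤ T → ∀ H : ℝ, T ^ h ≤ H → H ≤ T →
      ∃ (g : ℝ → ℝ) (Λ U1 U2 : ℝ), Win g ∧ 0 ≤ Λ ∧ Λ ≤ Real.log T ∧ 10 ≤ Real.log T ∧ 6 ≤ H ∧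
        T ≤ U1 ∧ U1 ≤ T + 1 ∧ T + H - 1 ≤ U2 ∧ U2 ≤ T + H ∧ ∀ κ : ℝ, 0 ≤ κ → κ ≤ 4 →
        (κ - cc h - ε) * (NN F T (T + H) : ℝ) ≤
          κ * NN F U1 U2 - QQG g F Λ U1 U2 - E * Real.log T := by
  have hs2 : 0 < Real.sqrt 2 := Real.sqrt_pos.2 (by norm_num)
  set s : ℝ := Real.sqrt 2 * h with hs
  have hs0 : 0 < s := by positivity
  have hs1 : s ≤ Real.sqrt 2 := by
    rw [hs]
    nlinarith
  have hW := H255SI.winS s hs0 hs1
  have hC := H793SI.convS s hs0 hs1
  have hK := H218SI3.kSqS s hs0 hs1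
  have hc := H228SI.constS h hh0 hh1
  rw [← hs] at hc
  set R : ℝ → ℝ := RS s with hR
  set J : ℝ := ∫ α in (0 : ℝ)..1, α * R α with hJ
  have hJ0 : 0 ≤ J := by
    apply intervalIntegral.integral_nonneg (by norm_num)
    intro u hu
    exact mul_nonneg hu.1 (hC.nonneg u)
  have hR0 : 0 ≤ R 0 := hC.nonneg 0
  have hcR : ∀ x, cR R x = R 0 / x + 2 * x * J := fun x => rfl
  have hcc0 : 0 ≤ cc h := by
    rw [← hc, hcR]
    positivity
  set e : ℝ := min ε 1 with he
  have he0 : 0 < e := lt_min hε one_pos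
  have he1 : e ≤ ε := min_le_left _ _
  have he2 : e ≤ 1 := min_le_right _ _
  set K : ℝ := 4 + cc h with hKdef
  have hK1 : 1 ≤ K := by linarith
  have hK0 : 0 < K := by linarith
  set η : ℝ := e / (80 * K) with hη
  have hη0 : 0 < η := by positivity
  have hηK : K * η = e / 80 := by rw [hη]; field_simp
  have hηe : η ≤ e / 80 := by
    rw [← hηK]
    nlinarith
  set δ : ℝ := min (h / 2) (e * h ^ 2 / (8 * (R 0 + 1))) with hδ
  have hδ0 : 0 < δ := lt_min (by positivity) (by positivity)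
  have hδ1 : δ ≤ h / 2 := min_le_left _ _
  have hδ2 : δ * (8 * (R 0 + 1)) ≤ e * h ^ 2 := by
    have := min_le_right (h / 2) (e * h ^ 2 / (8 * (R 0 + 1)))
    rw [← hδ, le_div_iff₀ (by positivity)] at this
    exact this
  -- the constant at `h - δ`
  have hcδ : cR R (h - δ) ≤ cc h + e / 4 := by
    rw [hcR, ← hc, hcR]
    have hhδ : 0 < h - δ := by linarith
    have h5 : R 0 / (h - δ) ≤ R 0 / h + e / 4 := by
      rw [div_le_iff₀ hhδ, add_mul, div_mul_eq_mul_div, ← sub_le_iff_le_add, ]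
      have h6 : R 0 - e / 4 * (h - δ) ≤ R 0 * (h - δ) / h := by
        rw [le_div_iff₀ hh0]
        nlinarith [mul_nonneg hR0 hδ0.le, mul_pos he0 hh0]
      linarith
    have h7 : 2 * (h - δ) * J ≤ 2 * h * J := by nlinarith
    linarith
  obtain ⟨T2, hT2, hPC⟩ := H613SI.pairShort H627SI.lamSmooth H228SI.qqJJ H965SI.countShort
    (H804JJ.jjShort H399SI.explShort Pool.Agent.H431R2.SI.outerShort) (gS s) R hW hC hK F hF h δ η
    hδ0 (by linarith) hh1 hη0
  obtain ⟨C0, hC00, hends⟩ := H965SI.countShort F hF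
  set C : ℝ := 4 * C0 + E + 1 with hCdef
  have hC0 : 0 < C := by positivity
  set B : ℝ := max 6 (2 * Real.pi * C * (80 * K) / e) with hB
  have hB3 : 6 ≤ B := le_max_left _ _
  refine ⟨max (max (10 + Real.exp 10) T2) (B ^ (1 / h)), le_trans (by
    have := Real.exp_pos 10; linarith) ((le_max_left _ _).trans
    (le_max_left _ _)), fun T hT H hH1 hH2 => ?_⟩
  have hTe : 10 + Real.exp 10 ≤ T := ((le_max_left _ _).trans (le_max_left _ _)).trans hT
  have hT10 : 10 ≤ T := by
    have := Real.exp_pos 10; linarith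
  have hTT2 : T2 ≤ T := ((le_max_right _ _).trans (le_max_left _ _)).trans hT
  have hTB : B ≤ T ^ h := by
    have h5 : B ^ (1 / h) ≤ T := (le_max_right _ _).trans hT
    have h6 := Real.rpow_le_rpow (Real.rpow_nonneg (by linarith) _) h5 hh0.le
    rw [← Real.rpow_mul (by linarith), one_div_mul_cancel hh0.ne', Real.rpow_one] at h6
    exact h6
  have hHB : B ≤ H := hTB.trans hH1
  have hH6 : 6 ≤ H := hB3.trans hHB
  have hH3 : 3 ≤ H := by linarith
  have hHC : 2 * Real.pi * C * (80 * K) / e ≤ H := (le_max_right _ _).trans hHB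
  obtain ⟨U1, U2, hU1, hU1', hU2, hU2', hNN, hQQ⟩ := hPC T hTT2 H hH1 hH2
  have hL1 : 10 ≤ Real.log T := by
    rw [Real.le_log_iff_exp_le (by linarith)]
    linarith
  have hL : 0 < Real.log T := by linarith
  set M : ℝ := H * Real.log T / (2 * Real.pi) with hM
  have hpi := Real.pi_pos
  have hM0 : 0 < M := by positivity
  have hTL : H * Real.log T = 2 * Real.pi * M := by rw [hM]; field_simp
  rw [hTL] at hNN
  have hpi2 : Real.pi < 3.15 := Real.pi_lt_d2
  have hηM : η * (2 * Real.pi * M) ≤ 7 * (η * M) := by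
    have : 2 * Real.pi ≤ 7 := by linarith
    calc η * (2 * Real.pi * M) = (η * M) * (2 * Real.pi) := by ring
      _ ≤ (η * M) * 7 := by
        apply mul_le_mul_of_nonneg_left this (by positivity)
      _ = 7 * (η * M) := by ring
  obtain ⟨hNNl, hNNu⟩ := abs_le.mp hNN
  have hQ : QQG (gS s) F ((h - δ) * Real.log T) U1 U2 ≤ M * (cc h + e / 4 + η) := by
    refine hQQ.trans ?_
    exact mul_le_mul_of_nonneg_left (by linarith) hM0.le
  have hT1 : 1 ≤ T := by linarith
  have hNNm : (NN F U1 U2 : ℝ) ≤ NN F T (T + H) := by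
    exact_mod_cast NN_mono hF hT1 hU1 hU2'
  have hend := (hends T hT10 H hH3 hH2 U1 U2 hU1 hU1' hU2 hU2').2
  have hCL : C * Real.log T ≤ η * M := by
    rw [hM]
    rw [div_le_iff₀ he0] at hHC
    have : η * (H * Real.log T / (2 * Real.pi)) =
      (H * e) * (Real.log T / (160 * K * Real.pi)) := by rw [hη]; field_simp; ring
    rw [this]
    calc C * Real.log T = (2 * Real.pi * C * (80 * K)) * (Real.log T / (160 * K * Real.pi)) := by
          field_simp; ring
      _ ≤ (H * e) * (Real.log T / (160 * K * Real.pi)) :=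
        mul_le_mul_of_nonneg_right hHC (by positivity)
  have hNN0 : (0 : ℝ) ≤ NN F T (T + H) := Nat.cast_nonneg _
  have heM : 0 < e * M := by positivity
  have hηM0 : 0 < η * M := by positivity
  have hηeM : η * M ≤ e * M / 80 := by
    have := mul_le_mul_of_nonneg_right hηe hM0.le
    linarith
  have hKηM : K * (η * M) = e * M / 80 := by
    rw [← mul_assoc, hηK]; ring
  have h8 : M * (cc h + e / 4 + η) = cc h * M + e * M / 4 + η * M := by ring
  rw [h8] at hQ
  -- lower bound for `N`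
  have hlow : M - 7 * (η * M) ≤ NN F T (T + H) := by linarith
  have hlow2 : (cc h + e) * (M - 7 * (η * M)) ≤ (cc h + e) * (NN F T (T + H) : ℝ) :=
    mul_le_mul_of_nonneg_left hlow (by linarith)
  have hlow3 : (cc h + e) * (7 * (η * M)) ≤ 7 * (e * M / 80) := by
    have : (cc h + e) * (7 * (η * M)) ≤ K * (7 * (η * M)) :=
      mul_le_mul_of_nonneg_right (by linarith) (by positivity)
    linarith
  refine ⟨gS s, (h - δ) * Real.log T, U1, U2, hW, ?_, ?_, hL1, hH6, hU1, hU1', hU2, hU2',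
    fun κ hκ0 hκ4 => ?_⟩
  · exact mul_nonneg (by linarith) hL.le
  · nlinarith
  · have b1 : (κ - cc h - ε) * (NN F T (T + H) : ℝ) ≤ (κ - cc h - e) * (NN F T (T + H) : ℝ) :=
      mul_le_mul_of_nonneg_right (by linarith) hNN0
    have b2 : κ * (NN F T (T + H) : ℝ) ≤ κ * NN F U1 U2 + 4 * C0 * Real.log T := by
      have c1 := mul_le_mul_of_nonneg_left hend hκ0
      have c2 : κ * (C0 * Real.log T) ≤ 4 * (C0 * Real.log T) :=
        mul_le_mul_of_nonneg_right hκ4 (by positivity)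
      linarith
    have b3 : C * Real.log T = 4 * C0 * Real.log T + E * Real.log T + Real.log T := by
      rw [hCdef]; ring
    have b4 : (κ - cc h - e) * (NN F T (T + H) : ℝ) = κ * (NN F T (T + H) : ℝ) -
        (cc h + e) * (NN F T (T + H) : ℝ) := by ring
    have b5 : (cc h + e) * (M - 7 * (η * M)) = cc h * M + e * M - (cc h + e) * (7 * (η * M)) := by
      ring
    linarith

end Pool.Agent.V8H24.NS.Cp
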