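import Pool.Agent.V8H24.NS.Win
import Pool.Agent.V8H24.NS.Cd

/-! Natural densities of the nonzero small gaps. -/

open Filter

namespace Pool.Agent.V8H24.NS

open SG Cp

lemma two_log {T : ℝ} {n : ℕ} {T1 : ℝ} (hT1 : 10 ≤ T1)
    (hdiff : ∀ T : ℝ, T1 ≤ T → ∀ H : ℝ, T ^ (1 : ℝ) ≤ H → H ≤ T → H ≤ (NZ (T + H) : ℝ) - NZ T)
    (hTT1 : 2 * T1 ≤ T) (a1 : 1 ≤ n) (a2 : T < ord n) : Real.log T / 2 ≤ Real.log n := by
  have h3 := hdiff (T / 2) (by linarith) (T / 2) (by rw [Real.rpow_one]) le_rfl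
  have e2 : T / 2 + T / 2 = T := by ring
  rw [e2] at h3
  have h4 : NZ T < n := by
    by_contra hle
    push Not at hle
    have := (ord_le_iff a1 T).2 hle
    linarith
  have h5 : (NZ T : ℝ) < n := by exact_mod_cast h4
  have h6 : T / 2 ≤ n := by
    have : (0:ℝ) ≤ NZ (T / 2) := Nat.cast_nonneg _
    linarith
  have h8 : Real.log T ≤ Real.log ((n : ℝ) ^ 2) := by
    apply Real.log_le_log (by linarith)
    nlinarith
  rw [Real.log_pow] at h8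
  push_cast at h8
  linarith

/-- good numbers: zero gap or gap at least `δ / log n` -/
def Good (δ : ℝ) (n : ℕ) : Prop :=
  ord (n + 1) - ord n = 0 ∨ δ / Real.log n ≤ ord (n + 1) - ord n

/-- **lower density of the good numbers** -/
theorem dens_good (ε : ℝ) (hε : 0 < ε) : ∃ δ : ℝ, 0 < δ ∧ ∀ᶠ N : ℕ in atTop,
    (0.8362 - ε) * N ≤ ({n : ℕ | 1 ≤ n ∧ n ≤ N ∧ Good δ n}.ncard : ℝ) := by
  by_cases hbig : 0.8362 - ε ≤ 0
  · refine ⟨1, one_pos, Eventually.of_forall fun N => ?_⟩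
    have h1 : (0.8362 - ε) * (N : ℝ) ≤ 0 := mul_nonpos_of_nonpos_of_nonneg hbig (Nat.cast_nonneg _)
    exact h1.trans (Nat.cast_nonneg _)
  push Not at hbig
  obtain ⟨δ, T0, hδ, hT0, hw⟩ := window_nz 1 (ε / 4) one_pos le_rfl (by positivity)
  obtain ⟨T1, hT1, hdiff⟩ := diff_large 1 one_pos
  refine ⟨δ / 2, by positivity, ?_⟩
  have hd := density (fun n => Good (δ / 2) n) (0.8362 - ε / 4) (ε / 2)
    (by linarith) (by norm_num; linarith) (by positivity) ⟨max T0 (2 * T1), fun T hT => ?_⟩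
  · filter_upwards [hd] with N hN
    refine le_trans ?_ hN
    apply mul_le_mul_of_nonneg_right _ (Nat.cast_nonneg _)
    linarith
  · have hTT0 : T0 ≤ T := (le_max_left _ _).trans hT
    have hTT1 : 2 * T1 ≤ T := (le_max_right _ _).trans hT
    have h1 := hw T hTT0 T (by rw [Real.rpow_one]) le_rfl
    have e : T + T = 2 * T := by ring
    rw [e] at h1
    have hmono' : NZ T ≤ NZ (2 * T) := NZ_mono (by linarith : T ≤ 2 * T)
    have hmono : (NZ T : ℝ) ≤ NZ (2 * T) := by exact_mod_cast hmono'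
    have hlog : 0 < Real.log T := Real.log_pos (by linarith)
    have hfin : ({n : ℕ | 1 ≤ n ∧ T < ord n ∧ ord n ≤ 2 * T ∧ Good (δ / 2) n}).Finite := by
      refine (Set.finite_Iic (NZ (2 * T))).subset ?_
      rintro n ⟨b1, b2, b3, b4⟩
      exact (ord_le_iff b1 (2 * T)).1 b3
    have hsub : Set.Ioc (NZ T) (NZ (2 * T)) ⊆
        {n : ℕ | 1 ≤ n ∧ T < ord n ∧ ord n ≤ 2 * T ∧ Good (δ / 2) n} ∪
          SB T (2 * T) (δ / Real.log T) := by
      rintro n ⟨b1, b2⟩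
      have c1 : 1 ≤ n := by omega
      have c2 : T < ord n := by
        by_contra hle
        push Not at hle
        have := (ord_le_iff c1 T).1 hle
        omega
      have c3 : ord n ≤ 2 * T := (ord_le_iff c1 _).2 b2
      have c4 : 0 ≤ ord (n + 1) - ord n := sub_nonneg.2 (ord_mono c1 (Nat.le_succ n))
      by_cases hg : Good (δ / 2) n
      · exact Or.inl ⟨c1, c2, c3, hg⟩
      · right
        unfold Good at hg
        push Not at hg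
        refine ⟨c1, c2, c3, lt_of_le_of_ne c4 (Ne.symm hg.1), lt_of_lt_of_le hg.2 ?_⟩
        have h7 := two_log hT1 hdiff hTT1 c1 c2
        have h9 : 0 < Real.log T / 2 := by positivity
        have h10 : 0 < Real.log n := by linarith
        rw [div_div, div_le_div_iff₀ (by positivity) hlog]
        nlinarith
    have hcard := (Set.ncard_le_ncard hsub (hfin.union (SB_fin _ _ _))).trans
      (Set.ncard_union_le _ _)
    rw [ncard_Ioc] at hcard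
    have hcard' : ((NZ (2 * T) - NZ T : ℕ) : ℝ) ≤
        (({n : ℕ | 1 ≤ n ∧ T < ord n ∧ ord n ≤ 2 * T ∧ Good (δ / 2) n}).ncard : ℝ) +
          ((SB T (2 * T) (δ / Real.log T)).ncard : ℝ) := by exact_mod_cast hcard
    rw [Nat.cast_sub hmono'] at hcard'
    have hcc := Cp.cc_one
    have h2 : ((H295SI.cc 1 - 1) / 2 + ε / 4) * ((NZ (2 * T) : ℝ) - NZ T) ≤
        (0.1638 + ε / 4) * ((NZ (2 * T) : ℝ) - NZ T) := by
      apply mul_le_mul_of_nonneg_right _ (by linarith)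
      norm_num at hcc ⊢
      linarith
    have h3 : (0.8362 - ε / 4) * ((NZ (2 * T) : ℝ) - NZ T) = ((NZ (2 * T) : ℝ) - NZ T) -
        (0.1638 + ε / 4) * ((NZ (2 * T) : ℝ) - NZ T) := by ring
    rw [h3]
    linarith

/-- **upper density of the nonzero small gaps** -/
theorem dens_bad (ε : ℝ) (hε : 0 < ε) : ∃ δ : ℝ, 0 < δ ∧ ∀ᶠ N : ℕ in atTop,
    ({n : ℕ | 1 ≤ n ∧ n ≤ N ∧ 0 < ord (n + 1) - ord n ∧
      ord (n + 1) - ord n < δ / Real.log n}.ncard : ℝ) ≤ (0.1638 + ε) * N := by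
  obtain ⟨δ, hδ, hd⟩ := dens_good ε hε
  refine ⟨δ, hδ, ?_⟩
  filter_upwards [hd] with N hN
  have hf1 : ({n : ℕ | 1 ≤ n ∧ n ≤ N ∧ Good δ n}).Finite :=
    (Set.finite_Iic N).subset fun n hn => hn.2.1
  have hf2 : ({n : ℕ | 1 ≤ n ∧ n ≤ N ∧ 0 < ord (n + 1) - ord n ∧
      ord (n + 1) - ord n < δ / Real.log n}).Finite :=
    (Set.finite_Iic N).subset fun n hn => hn.2.1
  have hdis : Disjoint {n : ℕ | 1 ≤ n ∧ n ≤ N ∧ Good δ n} {n : ℕ | 1 ≤ n ∧ n ≤ N ∧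
      0 < ord (n + 1) - ord n ∧ ord (n + 1) - ord n < δ / Real.log n} := by
    rw [Set.disjoint_left]
    rintro n ⟨a1, a2, a3⟩ ⟨b1, b2, b3, b4⟩
    rcases a3 with h | h
    · linarith
    · linarith
  have h1 := Set.ncard_union_eq hdis hf1 hf2
  have h2 : ({n : ℕ | 1 ≤ n ∧ n ≤ N ∧ Good δ n} ∪ {n : ℕ | 1 ≤ n ∧ n ≤ N ∧
      0 < ord (n + 1) - ord n ∧ ord (n + 1) - ord n < δ / Real.log n}).ncard ≤ N := by
    have h3 := Set.ncard_le_ncard (s := {n : ℕ | 1 ≤ n ∧ n ≤ N ∧ Good δ n} ∪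
      {n : ℕ | 1 ≤ n ∧ n ≤ N ∧ 0 < ord (n + 1) - ord n ∧ ord (n + 1) - ord n < δ / Real.log n})
      (t := Set.Icc 1 N) (by
        rintro n (hn | hn)
        · exact ⟨hn.1, hn.2.1⟩
        · exact ⟨hn.1, hn.2.1⟩) (Set.finite_Icc _ _)
    rwa [ncard_Icc] at h3
  rw [h1] at h2
  have h3 : (({n : ℕ | 1 ≤ n ∧ n ≤ N ∧ Good δ n}).ncard : ℝ) + (({n : ℕ | 1 ≤ n ∧ n ≤ N ∧
      0 < ord (n + 1) - ord n ∧ ord (n + 1) - ord n < δ / Real.log n}).ncard : ℝ) ≤ N := by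
    exact_mod_cast h2
  have h4 : (0.8362 - ε) * (N : ℝ) = N - (0.1638 + ε) * N := by ring
  linarith

/-- from gaps to exponents -/
theorem expo_of (Q : ℕ → Prop) (a : ℝ)
    (hyp : ∀ ε : ℝ, 0 < ε → ∃ δ : ℝ, 0 < δ ∧ ∀ᶠ N : ℕ in atTop,
      (a - ε) * N ≤ ({n : ℕ | 1 ≤ n ∧ n ≤ N ∧
        (Q n ∨ δ / Real.log n ≤ ord (n + 1) - ord n)}.ncard : ℝ))
    (ε : ℝ) (hε : 0 < ε) : ∀ᶠ N : ℕ in atTop,
    (a - ε) * N ≤ ({n : ℕ | 1 ≤ n ∧ n ≤ N ∧ (Q n ∨ ((n : ℝ) ^ (-ε) ≤ ord (n + 1) - ord n ∧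
      ord (n + 1) - ord n ≤ (n : ℝ) ^ ε))}.ncard : ℝ) := by
  obtain ⟨δ, hδ, hd⟩ := hyp (ε / 4) (by positivity)
  set M : ℝ := 12 / ε with hM
  have hM0 : 0 < M := by positivity
  obtain ⟨C, hC⟩ := few_long M hM0
  -- a threshold
  have hlim : Tendsto (fun n : ℕ => (n : ℝ) ^ ε) atTop atTop :=
    (tendsto_rpow_atTop hε).comp tendsto_natCast_atTop_atTop
  have hlim2 : ∀ᶠ n : ℕ in atTop, Real.log n ≤ δ * (n : ℝ) ^ ε := by
    have h1 := (isLittleO_log_rpow_atTop hε).bound hδ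
    have h2 := tendsto_natCast_atTop_atTop (R := ℝ) |>.eventually h1
    filter_upwards [h2, eventually_ge_atTop 1] with n hn hn1
    rw [Real.norm_eq_abs, Real.norm_eq_abs, abs_of_nonneg (a := (n : ℝ) ^ ε) (by positivity)] at hn
    exact (le_abs_self _).trans hn
  obtain ⟨n0, hn0⟩ := (hlim2.and ((hlim.eventually_ge_atTop M).and
    (eventually_ge_atTop 2))).exists_forall_of_atTop
  filter_upwards [hd, hC, eventually_ge_atTop (⌈4 * (n0 + 1) / ε⌉₊),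
    eventually_ge_atTop (⌈|C|⌉₊)] with N h1 h2 h3 h4
  have h3' : 4 * ((n0 : ℝ) + 1) / ε ≤ N := Nat.ceil_le.1 h3
  have h4' : |C| ≤ N := Nat.ceil_le.1 h4
  rw [div_le_iff₀ hε] at h3'
  set A : Set ℕ := {n : ℕ | 1 ≤ n ∧ n ≤ N ∧ (Q n ∨ δ / Real.log n ≤ ord (n + 1) - ord n)} with hA
  set B : Set ℕ := {n : ℕ | 1 ≤ n ∧ n ≤ N ∧ M < ord (n + 1) - ord n} with hB
  set G : Set ℕ := {n : ℕ | 1 ≤ n ∧ n ≤ N ∧ (Q n ∨ ((n : ℝ) ^ (-ε) ≤ ord (n + 1) - ord n ∧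
      ord (n + 1) - ord n ≤ (n : ℝ) ^ ε))} with hG
  have hBf : B.Finite := (Set.finite_Iic N).subset fun n hn => hn.2.1
  have hGf : G.Finite := (Set.finite_Iic N).subset fun n hn => hn.2.1
  have hsub : A ⊆ (G ∪ B) ∪ Set.Iic n0 := by
    rintro n ⟨a1, a2, a3⟩
    by_cases hn : n ≤ n0
    · exact Or.inr hn
    push Not at hn
    left
    by_cases hb : M < ord (n + 1) - ord n
    · exact Or.inr ⟨a1, a2, hb⟩
    push Not at hb
    left
    obtain ⟨b1, b2, b3⟩ := hn0 n hn.le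
    rcases a3 with a3 | a3
    · exact ⟨a1, a2, Or.inl a3⟩
    refine ⟨a1, a2, Or.inr ⟨le_trans ?_ a3, hb.trans b2⟩⟩
    have hn2 : (2 : ℝ) ≤ n := by exact_mod_cast b3
    have hlog : 0 < Real.log n := Real.log_pos (by linarith)
    have hp : 0 < (n : ℝ) ^ ε := by positivity
    rw [Real.rpow_neg (by linarith), inv_eq_one_div, div_le_div_iff₀ hp hlog]
    linarith
  have hcard : (A.ncard : ℝ) ≤ G.ncard + B.ncard + (n0 + 1) := by
    have c1 := Set.ncard_le_ncard hsub ((hGf.union hBf).union (Set.finite_Iic n0))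
    have c2 := Set.ncard_union_le (G ∪ B) (Set.Iic n0)
    have c3 := Set.ncard_union_le G B
    have c4 : (Set.Iic n0 : Set ℕ).ncard = n0 + 1 := by
      rw [← Finset.coe_Iic, Set.ncard_coe_finset, Nat.card_Iic]
    have : A.ncard ≤ G.ncard + B.ncard + (n0 + 1) := by omega
    exact_mod_cast this
  have h5 : (B.ncard : ℝ) ≤ ε / 4 * N := by
    have c1 : M * (B.ncard : ℝ) ≤ 2 * N + C := h2
    have c2 : C ≤ |C| := le_abs_self C
    have c3 : (B.ncard : ℝ) = (M * (B.ncard : ℝ)) * (ε / 12) := by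
      rw [hM]; field_simp
    rw [c3]
    have c4 : (M * (B.ncard : ℝ)) * (ε / 12) ≤ (2 * N + |C|) * (ε / 12) := by
      apply mul_le_mul_of_nonneg_right _ (by positivity)
      linarith
    refine c4.trans ?_
    nlinarith
  nlinarith

/-- if there are only finitely many zero gaps -/
theorem dens_fin (hfin : {n : ℕ | 1 ≤ n ∧ ord (n + 1) = ord n}.Finite) (ε : ℝ) (hε : 0 < ε) :
    ∃ δ : ℝ, 0 < δ ∧ ∀ᶠ N : ℕ in atTop, (0.8362 - ε) * N ≤
      ({n : ℕ | 1 ≤ n ∧ n ≤ N ∧ δ / Real.log n ≤ ord (n + 1) - ord n}.ncard : ℝ) := by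
  obtain ⟨δ, hδ, hd⟩ := dens_good (ε / 2) (by positivity)
  refine ⟨δ, hδ, ?_⟩
  set E : Set ℕ := {n : ℕ | 1 ≤ n ∧ ord (n + 1) = ord n} with hE
  filter_upwards [hd, eventually_ge_atTop (⌈2 * (E.ncard : ℝ) / ε⌉₊)] with N h1 h2
  have h2' : 2 * (E.ncard : ℝ) / ε ≤ N := Nat.ceil_le.1 h2
  rw [div_le_iff₀ hε] at h2'
  have hf : ({n : ℕ | 1 ≤ n ∧ n ≤ N ∧ δ / Real.log n ≤ ord (n + 1) - ord n}).Finite :=
    (Set.finite_Iic N).subset fun n hn => hn.2.1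
  have hsub : {n : ℕ | 1 ≤ n ∧ n ≤ N ∧ Good δ n} ⊆
      {n : ℕ | 1 ≤ n ∧ n ≤ N ∧ δ / Real.log n ≤ ord (n + 1) - ord n} ∪ E := by
    rintro n ⟨a1, a2, a3⟩
    rcases a3 with h | h
    · exact Or.inr ⟨a1, by linarith⟩
    · exact Or.inl ⟨a1, a2, h⟩
  have h3 := (Set.ncard_le_ncard hsub (hf.union hfin)).trans (Set.ncard_union_le _ _)
  have h4 : (({n : ℕ | 1 ≤ n ∧ n ≤ N ∧ Good δ n}).ncard : ℝ) ≤
      (({n : ℕ | 1 ≤ n ∧ n ≤ N ∧ δ / Real.log n ≤ ord (n + 1) - ord n}).ncard : ℝ) + E.ncard := by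
    exact_mod_cast h3
  nlinarith

end Pool.Agent.V8H24.NS
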