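import Mathlib

/-! The gain from clusters of simple zeros. -/

open Finset

namespace Pool.Agent.V8H24.NS

/-- size of the cell of `x` -/
noncomputable def sz (S : Finset ℂ) (c : ℂ → ℤ) (x : ℂ) : ℝ :=
  ((S.filter (fun y => c y = c x)).card : ℝ)

lemma sz_pos {S : Finset ℂ} {c : ℂ → ℤ} {x : ℂ} (hx : x ∈ S) : 1 ≤ sz S c x := by
  unfold sz
  have : 0 < (S.filter (fun y => c y = c x)).card :=
    Finset.card_pos.2 ⟨x, Finset.mem_filter.2 ⟨hx, rfl⟩⟩
  exact_mod_cast this

/-- normalized cell matrix -/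
noncomputable def W (S : Finset ℂ) (c : ℂ → ℤ) (x y : ℂ) : ℝ :=
  if c y = c x then 1 / sz S c x else 0

lemma W_comm {S : Finset ℂ} {c : ℂ → ℤ} (x y : ℂ) : W S c x y = W S c y x := by
  unfold W
  by_cases h : c y = c x
  · rw [if_pos h, if_pos h.symm]
    unfold sz
    rw [h]
  · rw [if_neg h, if_neg (fun h' => h h'.symm)]

lemma W_nonneg {S : Finset ℂ} {c : ℂ → ℤ} (x y : ℂ) : 0 ≤ W S c x y := by
  unfold W sz
  split_ifs <;> positivity

lemma W_sum {S : Finset ℂ} {c : ℂ → ℤ} {x : ℂ} (hx : x ∈ S) : ∑ y ∈ S, W S c x y = 1 := by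
  have h := sz_pos (c := c) hx
  unfold W
  rw [← Finset.sum_filter, Finset.sum_const, nsmul_eq_mul]
  change sz S c x * (1 / sz S c x) = 1
  field_simp

lemma W_self {S : Finset ℂ} {c : ℂ → ℤ} (x : ℂ) : W S c x x = 1 / sz S c x := by
  unfold W
  rw [if_pos rfl]

lemma W_sq {S : Finset ℂ} {c : ℂ → ℤ} {x : ℂ} (hx : x ∈ S) :
    ∑ y ∈ S, W S c x y ^ 2 = 1 / sz S c x := by
  have h1 : ∀ y, W S c x y ^ 2 = W S c x y * (1 / sz S c x) := by
    intro y
    unfold W
    split_ifs <;> ring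
  simp only [h1]
  rw [← Finset.sum_mul, W_sum hx, one_mul]

/-- number of cells -/
lemma cells (S : Finset ℂ) (c : ℂ → ℤ) : ∑ x ∈ S, 1 / sz S c x = ((S.image c).card : ℝ) := by
  classical
  rw [← Finset.sum_fiberwise_of_maps_to (g := c) (t := S.image c)
    (fun x hx => Finset.mem_image_of_mem c hx)]
  rw [Finset.card_eq_sum_ones]
  push_cast
  refine Finset.sum_congr rfl fun k hk => ?_
  rw [Finset.mem_image] at hk
  obtain ⟨z, hz, rfl⟩ := hk
  have h1 : ∀ x ∈ S.filter (fun x => c x = c z), 1 / sz S c x = 1 / sz S c z := by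
    intro x hx
    unfold sz
    rw [(Finset.mem_filter.1 hx).2]
  rw [Finset.sum_congr rfl h1, Finset.sum_const, nsmul_eq_mul]
  have h := sz_pos (c := c) hz
  change sz S c z * (1 / sz S c z) = 1
  field_simp

/-- indicator of the cells with at least two elements -/
noncomputable def tt (S : Finset ℂ) (c : ℂ → ℤ) (x : ℂ) : ℝ := if 2 ≤ sz S c x then 1 else 0

/-- the certificate -/
noncomputable def YY (S : Finset ℂ) (c : ℂ → ℤ) (x y : ℂ) : ℝ :=
  tt S c x * (2 * W S c x y - if x = y then 1 else 0)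

lemma tt_W {S : Finset ℂ} {c : ℂ → ℤ} (x y : ℂ) : tt S c x * W S c x y = tt S c y * W S c x y := by
  unfold W
  by_cases h : c y = c x
  · rw [if_pos h]
    unfold tt sz
    rw [h]
  · rw [if_neg h, mul_zero, mul_zero]

lemma re_le (a b : ℂ) : ((starRingEnd ℂ a) * b).re ≤ (‖a‖ ^ 2 + ‖b‖ ^ 2) / 2 := by
  have h1 : ((starRingEnd ℂ a) * b).re ≤ ‖(starRingEnd ℂ a) * b‖ := Complex.re_le_norm _
  rw [norm_mul, RCLike.norm_conj] at h1
  nlinarith [sq_nonneg (‖a‖ - ‖b‖)]

lemma re_self (a : ℂ) : ((starRingEnd ℂ a) * a).re = ‖a‖ ^ 2 := by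
  rw [mul_comm, Complex.mul_conj, Complex.ofReal_re, Complex.normSq_eq_norm_sq]

/-- the certificate is admissible -/
lemma YY_adm (S : Finset ℂ) (c : ℂ → ℤ) (v : ℂ → ℂ) :
    ∑ x ∈ S, ∑ y ∈ S, YY S c x y * ((starRingEnd ℂ (v x)) * v y).re ≤ ∑ x ∈ S, ‖v x‖ ^ 2 := by
  classical
  have ht0 : ∀ x, 0 ≤ tt S c x := fun x => by unfold tt; split_ifs <;> norm_num
  have ht1 : ∀ x, tt S c x ≤ 1 := fun x => by unfold tt; split_ifs <;> norm_num
  have h1 : ∀ x ∈ S, ∑ y ∈ S, YY S c x y * ((starRingEnd ℂ (v x)) * v y).re ≤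
      ∑ y ∈ S, tt S c y * W S c x y * ‖v y‖ ^ 2 := by
    intro x hx
    have h2 : ∀ y ∈ S, YY S c x y * ((starRingEnd ℂ (v x)) * v y).re ≤
        tt S c x * ‖v x‖ ^ 2 * W S c x y + tt S c y * W S c x y * ‖v y‖ ^ 2 -
          (if x = y then tt S c x * ‖v x‖ ^ 2 else 0) := by
      intro y hy
      have e1 : YY S c x y * ((starRingEnd ℂ (v x)) * v y).re =
          tt S c x * W S c x y * (2 * ((starRingEnd ℂ (v x)) * v y).re) -
          (if x = y then tt S c x * ‖v x‖ ^ 2 else 0) := by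
        unfold YY
        by_cases h : x = y
        · subst h
          rw [if_pos rfl, if_pos rfl, re_self]
          ring
        · rw [if_neg h, if_neg h]
          ring
      rw [e1]
      have h3 := re_le (v x) (v y)
      have h4 : 0 ≤ tt S c x * W S c x y := mul_nonneg (ht0 x) (W_nonneg x y)
      have h5 : tt S c x * W S c x y * (2 * ((starRingEnd ℂ (v x)) * v y).re) ≤
          tt S c x * W S c x y * (‖v x‖ ^ 2 + ‖v y‖ ^ 2) :=
        mul_le_mul_of_nonneg_left (by linarith) h4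
      have h6 : tt S c x * W S c x y * ‖v y‖ ^ 2 = tt S c y * W S c x y * ‖v y‖ ^ 2 := by
        rw [tt_W x y]
      have h7 : tt S c x * W S c x y * (‖v x‖ ^ 2 + ‖v y‖ ^ 2) =
          tt S c x * ‖v x‖ ^ 2 * W S c x y + tt S c x * W S c x y * ‖v y‖ ^ 2 := by ring
      linarith
    refine (Finset.sum_le_sum h2).trans (le_of_eq ?_)
    rw [Finset.sum_sub_distrib, Finset.sum_add_distrib, ← Finset.mul_sum, W_sum hx,
      Finset.sum_ite_eq, if_pos hx]
    ring
  refine (Finset.sum_le_sum h1).trans ?_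
  rw [Finset.sum_comm]
  refine Finset.sum_le_sum fun y hy => ?_
  have h2 : ∀ x ∈ S, tt S c y * W S c x y * ‖v y‖ ^ 2 = tt S c y * ‖v y‖ ^ 2 * W S c y x := by
    intro x _
    rw [W_comm x y]
    ring
  rw [Finset.sum_congr rfl h2, ← Finset.mul_sum, W_sum hy, mul_one]
  have := ht1 y
  nlinarith [sq_nonneg ‖v y‖]

/-- **the gain** -/
lemma YY_gain (S : Finset ℂ) (c : ℂ → ℤ) (φ : ℂ → ℂ) (h0 : φ 0 = 1) (η : ℝ)
    (hφ : ∀ x ∈ S, ∀ y ∈ S, c x = c y → 1 - η ≤ (φ (x - y)).re) :
    (2 - 4 * η) * ((S.card : ℝ) - (S.image c).card) ≤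
      2 * ∑ x ∈ S, ∑ y ∈ S, YY S c x y * ((φ (x - y)).re - if x = y then 1 else 0) -
        ∑ x ∈ S, ∑ y ∈ S, (YY S c x y) ^ 2 := by
  classical
  rw [← cells S c, Finset.card_eq_sum_ones]
  push_cast
  rw [← Finset.sum_sub_distrib, Finset.mul_sum, Finset.mul_sum, ← Finset.sum_sub_distrib]
  refine Finset.sum_le_sum fun x hx => ?_
  have hs1 := sz_pos (c := c) hx
  have hs0 : 0 < sz S c x := by linarith
  have htsq : tt S c x ^ 2 = tt S c x := by unfold tt; split_ifs <;> norm_num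
  have ht0 : 0 ≤ tt S c x := by unfold tt; split_ifs <;> norm_num
  -- the square sum
  have hsq : ∑ y ∈ S, (YY S c x y) ^ 2 = tt S c x := by
    have h1 : ∀ y ∈ S, (YY S c x y) ^ 2 = tt S c x * (4 * W S c x y ^ 2) +
        (if x = y then tt S c x * (1 - 4 * W S c x x) else 0) := by
      intro y _
      unfold YY
      rw [mul_pow, htsq]
      by_cases h : x = y
      · subst h
        rw [if_pos rfl, if_pos rfl]
        ring
      · rw [if_neg h, if_neg h]
        ring
    rw [Finset.sum_congr rfl h1, Finset.sum_add_distrib, Finset.sum_ite_eq, if_pos hx,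
      ← Finset.mul_sum, ← Finset.mul_sum, W_sq hx, W_self]
    ring
  -- the linear sum
  have hlin : tt S c x * (2 * (1 - η) * (1 - 1 / sz S c x)) ≤
      ∑ y ∈ S, YY S c x y * ((φ (x - y)).re - if x = y then 1 else 0) := by
    have h1 : ∀ y ∈ S, tt S c x * (2 * (1 - η)) * W S c x y -
        (if x = y then tt S c x * (2 * (1 - η)) * W S c x x else 0) ≤
        YY S c x y * ((φ (x - y)).re - if x = y then 1 else 0) := by
      intro y hy
      unfold YY
      by_cases h : x = y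
      · subst h
        rw [if_pos rfl, if_pos rfl, sub_self x, h0]
        simp
      · rw [if_neg h, if_neg h, sub_zero, sub_zero, sub_zero]
        unfold W
        by_cases hc : c y = c x
        · rw [if_pos hc]
          have h2 := hφ x hx y hy hc.symm
          have h3 : 0 ≤ tt S c x * (2 * (1 / sz S c x)) := by positivity
          have h4 := mul_le_mul_of_nonneg_left h2 h3
          linarith
        · rw [if_neg hc]
          simp
    refine le_trans (le_of_eq ?_) (Finset.sum_le_sum h1)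
    rw [Finset.sum_sub_distrib, Finset.sum_ite_eq, if_pos hx, ← Finset.mul_sum, W_sum hx, W_self]
    ring
  rw [hsq]
  refine le_trans ?_ (sub_le_sub_right (mul_le_mul_of_nonneg_left hlin (by norm_num)) _)
  by_cases h2 : 2 ≤ sz S c x
  · have ht : tt S c x = 1 := by unfold tt; rw [if_pos h2]
    rw [ht]
    have h3 : 1 / sz S c x ≤ 1 / 2 := by
      rw [div_le_div_iff₀ hs0 (by norm_num)]
      linarith
    nlinarith
  · have ht : tt S c x = 0 := by unfold tt; rw [if_neg h2]
    rw [ht]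
    have h3 : sz S c x = 1 := by
      push Not at h2
      unfold sz at h2 hs1 ⊢
      have h4 : (S.filter (fun y => c y = c x)).card < 2 := by exact_mod_cast h2
      have h5 : 1 ≤ (S.filter (fun y => c y = c x)).card := by exact_mod_cast hs1
      have h6 : (S.filter (fun y => c y = c x)).card = 1 := by omega
      rw [h6]; norm_num
    rw [h3]
    norm_num

end Pool.Agent.V8H24.NS
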