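import Pool.Agent.H370R2.Trace
import Pool.Agent.V8H24.NS.Gain
import Pool.Agent.V8H24.NS.Comb

/-! The pair sum controls the number of neighbouring distinct ordinates. -/

open Complex Finset
open scoped BigOperators ComplexConjugate

namespace Pool.Agent.V8H24.NS

theorem excess {E : Type*} [NormedAddCommGroup E] [InnerProductSpace ℂ E]
    (φ : ℂ → ℂ) (k : ℂ → E) (hk : ∀ z w, inner ℂ (k z) (k w) = φ (w - (starRingEnd ℂ) z))
    (hev : ∀ z, φ (-z) = φ z) (h0 : φ 0 = 1)
    (Z : Finset ℂ) (hZ : ∀ z ∈ Z, (starRingEnd ℂ) z ∈ Z) (m : ℂ → ℕ)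
    (hm1 : ∀ z ∈ Z, 1 ≤ m z) (hmc : ∀ z ∈ Z, m ((starRingEnd ℂ) z) = m z)
    (c : ℝ → ℤ) (η : ℝ) (hη : 0 ≤ η) (hη1 : η ≤ 1 / 2)
    (hφ : ∀ x y : ℝ, c x = c y → 1 - η ≤ (φ (((x : ℝ) : ℂ) - y)).re) :
    ∑ z ∈ Z, (m z : ℝ) + (2 - 4 * η) *
      (((Z.image Complex.re).card : ℝ) - ((Z.image Complex.re).image c).card) ≤
      (∑ z ∈ Z, ∑ w ∈ Z, (m z : ℂ) * (m w : ℂ) * (φ (z - w)) ^ 2).re := by
  classical
  set S := Z.filter (fun z => z.im = 0 ∧ m z = 1) with hS
  set M := Z.filter (fun z => z.im = 0 ∧ 2 ≤ m z) with hM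
  set P := Z.filter (fun z => 0 < z.im) with hP
  set P' := Z.filter (fun z => z.im < 0) with hP'
  have htr := H370.trace_ineq φ k hk hev h0 Z hZ m hm1 hmc (YY S (fun z => c z.re))
    (fun v => YY_adm S (fun z => c z.re) v)
  rw [← hS, ← hM, ← hP] at htr
  have hgain := YY_gain S (fun z => c z.re) φ h0 η (by
    intro x hx y hy hxy
    have hx2 := (Finset.mem_filter.1 hx).2.1
    have hy2 := (Finset.mem_filter.1 hy).2.1
    have ex : x = ((x.re : ℝ) : ℂ) := by
      apply Complex.ext
      · simp
      · simp [hx2]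
    have ey : y = ((y.re : ℝ) : ℂ) := by
      apply Complex.ext
      · simp
      · simp [hy2]
    rw [ex, ey]
    exact hφ _ _ hxy)
  -- the number of zeros
  have hsplit : ∑ z ∈ Z, (m z : ℝ) = ∑ z ∈ S, (m z : ℝ) + ∑ z ∈ M, (m z : ℝ) +
      ∑ z ∈ P, (m z : ℝ) + ∑ z ∈ P', (m z : ℝ) := by
    rw [hS, hM, hP, hP', Finset.sum_filter, Finset.sum_filter, Finset.sum_filter,
      Finset.sum_filter, ← Finset.sum_add_distrib, ← Finset.sum_add_distrib,
      ← Finset.sum_add_distrib]
    refine Finset.sum_congr rfl fun z hz => ?_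
    have h1 := hm1 z hz
    rcases lt_trichotomy z.im 0 with h | h | h
    · rw [if_neg (fun h' => by linarith [h'.1]), if_neg (fun h' => by linarith [h'.1]),
        if_neg (by linarith), if_pos h]
      ring
    · rw [if_neg (by linarith : ¬ 0 < z.im), if_neg (by linarith : ¬ z.im < 0)]
      by_cases h2 : m z = 1
      · rw [if_pos ⟨h, h2⟩, if_neg (fun h' => by omega)]
        ring
      · rw [if_neg (fun h' => h2 h'.2), if_pos ⟨h, by omega⟩]
        ring
    · rw [if_neg (fun h' => by linarith [h'.1]), if_neg (fun h' => by linarith [h'.1]),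
        if_pos h, if_neg (by linarith)]
      ring
  have hSs : ∑ z ∈ S, (m z : ℝ) = S.card := by
    rw [Finset.card_eq_sum_ones]
    push_cast
    refine Finset.sum_congr rfl fun z hz => ?_
    rw [(Finset.mem_filter.1 hz).2.2]
    norm_num
  have hMs : 2 * (M.card : ℝ) ≤ ∑ z ∈ M, (m z : ℝ) := by
    rw [mul_comm, ← nsmul_eq_mul, ← Finset.sum_const]
    refine Finset.sum_le_sum fun z hz => ?_
    exact_mod_cast (Finset.mem_filter.1 hz).2.2
  have hPs : (P.card : ℝ) ≤ ∑ z ∈ P, (m z : ℝ) := by
    rw [Finset.card_eq_sum_ones]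
    push_cast
    refine Finset.sum_le_sum fun z hz => ?_
    exact_mod_cast hm1 z (Finset.mem_filter.1 hz).1
  have hPP : P'.card = P.card := by
    apply Finset.card_bij' (fun z _ => (starRingEnd ℂ) z) (fun z _ => (starRingEnd ℂ) z)
    · intro z hz
      rw [hP', Finset.mem_filter] at hz
      rw [hP, Finset.mem_filter]
      exact ⟨hZ z hz.1, by rw [Complex.conj_im]; linarith [hz.2]⟩
    · intro z hz
      rw [hP, Finset.mem_filter] at hz
      rw [hP', Finset.mem_filter]
      exact ⟨hZ z hz.1, by rw [Complex.conj_im]; linarith [hz.2]⟩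
    · intro z _
      exact Complex.conj_conj z
    · intro z _
      exact Complex.conj_conj z
  have hPs' : (P.card : ℝ) ≤ ∑ z ∈ P', (m z : ℝ) := by
    rw [← hPP, Finset.card_eq_sum_ones]
    push_cast
    refine Finset.sum_le_sum fun z hz => ?_
    exact_mod_cast hm1 z (Finset.mem_filter.1 hz).1
  -- the distinct ordinates
  have hD : ((Z.image Complex.re).card : ℝ) ≤ S.card + M.card + P.card := by
    have hsub : Z.image Complex.re ⊆ (S.image Complex.re ∪ M.image Complex.re) ∪
        P.image Complex.re := by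
      intro y hy
      rw [Finset.mem_image] at hy
      obtain ⟨z, hz, rfl⟩ := hy
      have h1 := hm1 z hz
      rw [Finset.mem_union, Finset.mem_union]
      rcases lt_trichotomy z.im 0 with h | h | h
      · right
        rw [← Complex.conj_re z]
        apply Finset.mem_image_of_mem
        rw [hP, Finset.mem_filter]
        exact ⟨hZ z hz, by rw [Complex.conj_im]; linarith⟩
      · left
        by_cases h2 : m z = 1
        · left
          exact Finset.mem_image_of_mem _ (Finset.mem_filter.2 ⟨hz, h, h2⟩)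
        · right
          exact Finset.mem_image_of_mem _ (Finset.mem_filter.2 ⟨hz, h, by omega⟩)
      · right
        exact Finset.mem_image_of_mem _ (Finset.mem_filter.2 ⟨hz, h⟩)
    have h1 := (Finset.card_le_card hsub).trans (Finset.card_union_le _ _)
    have h2 := Finset.card_union_le (S.image Complex.re) (M.image Complex.re)
    have h3 : (S.image Complex.re).card ≤ S.card := Finset.card_image_le
    have h4 : (M.image Complex.re).card ≤ M.card := Finset.card_image_le
    have h5 : (P.image Complex.re).card ≤ P.card := Finset.card_image_le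
    exact_mod_cast (by omega : (Z.image Complex.re).card ≤ S.card + M.card + P.card)
  have hC : ((S.image (fun z => c z.re)).card : ℝ) ≤ ((Z.image Complex.re).image c).card := by
    have : S.image (fun z => c z.re) ⊆ (Z.image Complex.re).image c := by
      intro y hy
      rw [Finset.mem_image] at hy
      obtain ⟨z, hz, rfl⟩ := hy
      exact Finset.mem_image_of_mem c (Finset.mem_image_of_mem _ (Finset.mem_filter.1 hz).1)
    exact_mod_cast Finset.card_le_card this
  have h5 : (2 - 4 * η) * (((Z.image Complex.re).card : ℝ) -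
      ((Z.image Complex.re).image c).card) ≤ (2 - 4 * η) * ((S.card + M.card + P.card : ℝ) -
        (S.image (fun z => c z.re)).card) := mul_le_mul_of_nonneg_left (by linarith) (by linarith)
  have h6 : (2 - 4 * η) * ((S.card + M.card + P.card : ℝ) -
        (S.image (fun z => c z.re)).card) ≤ (2 - 4 * η) * ((S.card : ℝ) -
        (S.image (fun z => c z.re)).card) + 2 * ((M.card : ℝ) + P.card) := by
    have : 0 ≤ η * ((M.card : ℝ) + P.card) := by positivity
    nlinarith
  rw [hsplit, hSs] at htr ⊢
  linarith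

end Pool.Agent.V8H24.NS
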