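import Pool.Agent.V8H24.NS.Excess
import Pool.Agent.V8H24.NS.Cp
import Pool.Agent.V8H24.NS.Cw
import Pool.Agent.V8H6.GP.Comb

/-! Few nonzero small gaps in windows. -/

open Complex Filter Topology Set MeasureTheory
open scoped BigOperators ComplexConjugate

namespace Pool.Agent.V8H24.NS

open H370 H295SI Cp SG

/-- the pair sum and the neighbouring ordinates in a window -/
theorem win_excess {F : ℂ → ℂ} (hF : GoodL F) {A B : ℝ} (hU : 1 ≤ A) {g : ℝ → ℝ} (hg : Win g)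
    {Λ L δ : ℝ} (hΛ : 0 ≤ Λ) (hΛL : Λ ≤ L) (hL : 10 ≤ L) (hδ1 : δ ≤ 1)
    (c : ℝ → ℤ) (hc : ∀ x y : ℝ, c x = c y → |x - y| * L ≤ δ) :
    (NN F A B : ℝ) + (2 - 4 * (51 / 200 * δ ^ 2)) *
      ((((Zf F A B).image Complex.im).card : ℝ) - (((Zf F A B).image Complex.im).image c).card) ≤
      QQG g F Λ A B := by
  classical
  obtain ⟨E, iE1, iE2, k, hk⟩ := H143TG.gramG_exists hg Λ
  have hδ0 : 0 ≤ δ := by
    have := hc 0 0 rfl
    simpa using this
  have h := excess (phiG g Λ) k hk (H143TG.phiG_even hg Λ) (H143TG.phiG_zero hg Λ)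
    ((Zf F A B).image zz) (Zconj hF hU) (fun z => mult F (1 / 2 + I * z)) (Zpos hF hU)
    (Zmc hF hU) c (51 / 200 * δ ^ 2) (by positivity) (by nlinarith) (by
      intro x y hxy
      have h1 := phi_one hg hΛ hΛL hL (R := δ) (by linarith) (u := ((x : ℝ) : ℂ) - y) (by
        rw [← Complex.ofReal_sub, Complex.norm_real, Real.norm_eq_abs]
        exact hc x y hxy)
      have h2 := (Complex.abs_re_le_norm (phiG g Λ (((x : ℝ) : ℂ) - y) - 1)).trans h1
      rw [Complex.sub_re, Complex.one_re] at h2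
      linarith [(abs_le.1 h2).1])
  rw [ZQ hF hU] at h
  have e1 : ∑ z ∈ (Zf F A B).image zz, ((mult F (1 / 2 + I * z) : ℕ) : ℝ) = NN F A B := by
    rw [NN_eq hF hU, Finset.sum_image (fun s _ s' _ h => zz_inj h)]
    push_cast
    refine Finset.sum_congr rfl fun s _ => ?_
    rw [zz_back]
  have e2 : ((Zf F A B).image zz).image Complex.re = (Zf F A B).image Complex.im := by
    rw [Finset.image_image]
    refine Finset.image_congr fun s _ => ?_
    simp only [Function.comp]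
    exact zz_re s
  rw [e1, e2] at h
  exact h

lemma ord_zero {n : ℕ} (hn : 1 ≤ n) :
    ∃ s : ℂ, riemannZeta s = 0 ∧ 0 < s.re ∧ s.re < 1 ∧ s.im = ord n := by
  by_contra hcon
  push Not at hcon
  have h1 := ord_count (ord n) (ord_pos hn)
  have h2 : {s : ℂ | riemannZeta s = 0 ∧ 0 < s.re ∧ s.re < 1 ∧ s.im = ord n} = ∅ := by
    ext s
    simp only [Set.mem_setOf_eq, Set.mem_empty_iff_false, iff_false]
    rintro ⟨a1, a2, a3, a4⟩
    exact hcon s a1 a2 a3 a4
  rw [h2, finsum_mem_empty] at h1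
  have hfin : {k : ℕ | 1 ≤ k ∧ ord k = ord n}.Finite := by
    refine (Set.finite_Iic (NZ (ord n))).subset ?_
    rintro k ⟨b1, b2⟩
    exact (ord_le_iff b1 _).1 b2.le
  rw [Set.ncard_eq_zero hfin] at h1
  have : n ∈ ({k : ℕ | 1 ≤ k ∧ ord k = ord n}) := ⟨hn, rfl⟩
  rw [h1] at this
  exact this

/-- at a nonzero gap the counting function gives back the index -/
lemma NZ_ord {n : ℕ} (hn : 1 ≤ n) (h : 0 < ord (n + 1) - ord n) : NZ (ord n) = n := by
  have h1 := le_NZ_ord hn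
  have h2 : ¬ (n + 1 ≤ NZ (ord n)) := by
    rw [← ord_le_iff (by omega)]
    linarith
  omega

/-- nonzero small gaps with both ends in `(A, B]` -/
def SI' (A B d : ℝ) : Set ℕ := {n : ℕ | 1 ≤ n ∧ A < ord n ∧ ord (n + 1) ≤ B ∧
  0 < ord (n + 1) - ord n ∧ ord (n + 1) - ord n < d}

lemma SI'_fin (A B d : ℝ) : (SI' A B d).Finite := by
  refine (Set.finite_Iic (NZ B)).subset ?_
  rintro n ⟨h1, h2, h3, h4, h5⟩
  exact (ord_le_iff h1 B).1 (by linarith)

theorem small_inside {A B : ℝ} (hU : 1 ≤ A) {g : ℝ → ℝ} (hg : Win g)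
    {Λ L δ : ℝ} (hΛ : 0 ≤ Λ) (hΛL : Λ ≤ L) (hL : 10 ≤ L) (hδ : 0 < δ) (hδ1 : δ ≤ 1) (m : ℕ)
    (hm : 1 ≤ m) :
    (m : ℝ) * NN riemannZeta A B + (2 - 4 * (51 / 200 * δ ^ 2)) *
      (((m : ℝ) - 1) * (SI' A B (δ / L / m)).ncard) ≤ m * QQG g riemannZeta Λ A B := by
  classical
  have hL0 : 0 < L := by linarith
  have hm0 : (0 : ℝ) < m := by exact_mod_cast hm
  set w : ℝ := δ / L with hw
  have hw0 : 0 < w := by positivity
  have hfin := SI'_fin A B (w / m)
  set J := hfin.toFinset with hJ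
  have hJm : ∀ n ∈ J, n ∈ SI' A B (w / m) := fun n hn => by rwa [hJ, Set.Finite.mem_toFinset] at hn
  set nx : ℝ → ℝ := fun y => ord (NZ y + 1) with hnx
  set B0 := J.image ord with hB0
  have hinj : Set.InjOn ord J := by
    intro a ha b hb hab
    obtain ⟨a1, a2, a3, a4, a5⟩ := hJm a ha
    obtain ⟨b1, b2, b3, b4, b5⟩ := hJm b hb
    rw [← NZ_ord a1 a4, ← NZ_ord b1 b4, hab]
  have hcard : B0.card = (SI' A B (w / m)).ncard := by
    rw [hB0, Finset.card_image_of_injOn hinj, Set.ncard_eq_toFinset_card _ hfin]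
  have hB : ∀ y ∈ B0, ∃ n ∈ J, ord n = y ∧ nx y = ord (n + 1) := by
    intro y hy
    rw [hB0, Finset.mem_image] at hy
    obtain ⟨n, hn, rfl⟩ := hy
    obtain ⟨a1, a2, a3, a4, a5⟩ := hJm n hn
    exact ⟨n, hn, rfl, by simp only [hnx]; rw [NZ_ord a1 a4]⟩
  obtain ⟨j, hj⟩ := offsets B0 nx w hw0 m hm (by
    intro y hy
    obtain ⟨n, hn, rfl, h2⟩ := hB y hy
    obtain ⟨a1, a2, a3, a4, a5⟩ := hJm n hn
    rw [h2]
    constructor <;> linarith)
  set c : ℝ → ℤ := fun y => ⌊y / w + j / m⌋ with hc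
  set A0 := B0.filter (fun y => ⌊nx y / w + j / m⌋ = ⌊y / w + j / m⌋) with hA0
  set D := (Zf riemannZeta A B).image Complex.im with hD
  have hmemD : ∀ n : ℕ, 1 ≤ n → A < ord n → ord n ≤ B → ord n ∈ D := by
    intro n hn h1 h2
    obtain ⟨s, b1, b2, b3, b4⟩ := ord_zero hn
    rw [hD, Finset.mem_image]
    exact ⟨s, (mem_Zf good_zeta hU).mpr ⟨b2, b3, by linarith, by linarith, b1⟩, b4⟩
  have hadj := adj_card D A0 (by
    intro y hy
    rw [hA0, Finset.mem_filter] at hy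
    obtain ⟨n, hn, rfl, h2⟩ := hB y hy.1
    obtain ⟨a1, a2, a3, a4, a5⟩ := hJm n hn
    exact hmemD n a1 a2 (by linarith)) c nx (by
    intro y hy
    rw [hA0, Finset.mem_filter] at hy
    obtain ⟨n, hn, rfl, h2⟩ := hB y hy.1
    obtain ⟨a1, a2, a3, a4, a5⟩ := hJm n hn
    refine ⟨?_, ?_, hy.2⟩
    · rw [h2]
      exact hmemD (n + 1) (by omega) (by linarith) a3
    · rw [h2]; linarith)
  have hadj' : (A0.card : ℝ) ≤ (D.card : ℝ) - (D.image c).card := by
    have : ((A0.card + (D.image c).card : ℕ) : ℝ) ≤ D.card := by exact_mod_cast hadj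
    push_cast at this
    linarith
  have hex := win_excess good_zeta (A := A) (B := B) hU hg hΛ hΛL hL hδ1 c (by
    intro x y hxy
    have h1 : |(x / w + j / m) - (y / w + j / m)| < 1 :=
      Int.abs_sub_lt_one_of_floor_eq_floor hxy
    have h2 : (x / w + (j : ℝ) / m) - (y / w + j / m) = (x - y) / w := by ring
    rw [h2, abs_div, abs_of_pos hw0, div_lt_one hw0] at h1
    calc |x - y| * L ≤ w * L := by gcongr
      _ = δ := by rw [hw]; field_simp)
  rw [← hD] at hex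
  rw [hcard] at hj
  have hη : 0 ≤ 2 - 4 * (51 / 200 * δ ^ 2) := by nlinarith
  have h1 : (2 - 4 * (51 / 200 * δ ^ 2)) * (((m : ℝ) - 1) * (SI' A B (w / m)).ncard) ≤
      (2 - 4 * (51 / 200 * δ ^ 2)) * (m * ((D.card : ℝ) - (D.image c).card)) := by
    apply mul_le_mul_of_nonneg_left _ hη
    exact hj.trans (mul_le_mul_of_nonneg_left hadj' hm0.le)
  have h2 := mul_le_mul_of_nonneg_left hex hm0.le
  linarith

/-- the numbers `n` with `A < ord n ≤ B` and a nonzero gap smaller than `d` -/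
def SB (A B d : ℝ) : Set ℕ := {n : ℕ | 1 ≤ n ∧ A < ord n ∧ ord n ≤ B ∧
  0 < ord (n + 1) - ord n ∧ ord (n + 1) - ord n < d}

lemma SB_fin (A B d : ℝ) : (SB A B d).Finite := by
  refine (Set.finite_Iic (NZ B)).subset ?_
  rintro n ⟨h1, h2, h3, h4, h5⟩
  exact (ord_le_iff h1 B).1 h3

/-- **few nonzero small gaps in short intervals** -/
theorem window_nz (h ε : ℝ) (hh0 : 0 < h) (hh1 : h ≤ 1) (hε : 0 < ε) :
    ∃ δ T0 : ℝ, 0 < δ ∧ 10 ≤ T0 ∧ ∀ T : ℝ, T0 ≤ T → ∀ H : ℝ, T ^ h ≤ H → H ≤ T →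
      ((SB T (T + H) (δ / Real.log T)).ncard : ℝ) ≤
        ((cc h - 1) / 2 + ε) * ((NZ (T + H) : ℝ) - NZ T) := by
  classical
  set K : ℝ := |cc h - 1| + 1 with hK
  have hK1 : 1 ≤ K := by rw [hK]; linarith [abs_nonneg (cc h - 1)]
  have hcK : cc h - 1 ≤ K := by rw [hK]; linarith [le_abs_self (cc h - 1)]
  set τ : ℝ := min (1 / 4) (ε / (4 * K)) with hτ
  have hτ0 : 0 < τ := lt_min (by norm_num) (by positivity)
  have hτ1 : τ ≤ 1 / 4 := min_le_left _ _
  have hτK : τ * K ≤ ε / 4 := by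
    have := min_le_right (1 / 4) (ε / (4 * K))
    rw [← hτ, le_div_iff₀ (by positivity)] at this
    linarith
  -- the parameters
  obtain ⟨m, hm⟩ := exists_nat_gt (1 / τ)
  have hm0 : (0 : ℝ) < m := lt_trans (by positivity) hm
  have hm1 : 1 ≤ m := by
    have : (0 : ℝ) < m := hm0
    exact_mod_cast this
  have hmτ : 1 ≤ τ * m := by
    rw [div_lt_iff₀ hτ0] at hm
    linarith
  set δ : ℝ := τ with hδ
  have hη : 4 * (51 / 200 * δ ^ 2) ≤ 2 * τ := by rw [hδ]; nlinarith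
  obtain ⟨C, hC, hends⟩ := ends2 good_zeta
  obtain ⟨T1, hT1, hwin⟩ := windows good_zeta h (ε / 2) (2 * C) hh0 hh1 (by positivity)
    (by positivity)
  refine ⟨δ / m, T1, by positivity, hT1, fun T hT H hH1 hH2 => ?_⟩
  have hT10 : 10 ≤ T := hT1.trans hT
  obtain ⟨g, Λ, U1, U2, hg, hΛ0, hΛL, hL1, hH6, hU1, hU1', hU2, hU2', hκ⟩ := hwin T hT H hH1 hH2
  have hL0 : 0 < Real.log T := by linarith
  have hk := hκ 1 (by norm_num) (by norm_num)
  have hin := small_inside (A := U1) (B := U2) (by linarith) hg hΛ0 hΛL hL1 (δ := δ)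
    (by rw [hδ]; exact hτ0) (by rw [hδ]; linarith) m hm1
  have he := hends T hT10 H hH6 hH2
  have e1 : ((NZ (T + H) : ℕ) : ℝ) - NZ T = H370.NN riemannZeta T (T + H) := by
    rw [Pool.Agent.V8H6.GP.NZ_diff T (T + H) (by linarith) (by linarith)]; push_cast; ring
  have hd1 : δ / Real.log T / m ≤ 1 := by
    rw [div_div, div_le_one (by positivity)]
    have : (1 : ℝ) ≤ m := by exact_mod_cast hm1
    nlinarith
  have e0 : δ / m / Real.log T = δ / Real.log T / m := by rw [div_div, div_div, mul_comm]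
  rw [e0]
  set d : ℝ := δ / Real.log T / m with hd
  -- the two ends
  have hsub : SB T (T + H) d ⊆ SI' U1 U2 d ∪ (Set.Ioc (NZ T) (NZ (T + 2)) ∪
      Set.Ioc (NZ (T + H - 2)) (NZ (T + H))) := by
    rintro n ⟨h1, h2, h3, h4, h5⟩
    by_cases ha : ord n ≤ T + 2
    · right; left
      refine ⟨?_, (ord_le_iff h1 _).1 ha⟩
      by_contra hle
      push Not at hle
      have := (ord_le_iff h1 T).2 hle
      linarith
    · by_cases hb : T + H - 2 < ord n
      · right; right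
        refine ⟨?_, (ord_le_iff h1 _).1 h3⟩
        by_contra hle
        push Not at hle
        have := (ord_le_iff h1 (T + H - 2)).2 hle
        linarith
      · left
        push Not at ha hb
        exact ⟨h1, by linarith, by linarith, h4, h5⟩
  have hcard : ((SB T (T + H) d).ncard : ℝ) ≤ (SI' U1 U2 d).ncard + C * Real.log T := by
    have h1 := Set.ncard_le_ncard hsub ((SI'_fin U1 U2 d).union
      ((Set.finite_Ioc _ _).union (Set.finite_Ioc _ _)))
    have h2 := Set.ncard_union_le (SI' U1 U2 d) (Set.Ioc (NZ T) (NZ (T + 2)) ∪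
      Set.Ioc (NZ (T + H - 2)) (NZ (T + H)))
    have h3 := Set.ncard_union_le (Set.Ioc (NZ T) (NZ (T + 2))) (Set.Ioc (NZ (T + H - 2)) (NZ (T + H)))
    have h4 : (Set.Ioc (NZ T) (NZ (T + 2))).ncard = NZ (T + 2) - NZ T := ncard_Ioc _ _
    have h5 : (Set.Ioc (NZ (T + H - 2)) (NZ (T + H))).ncard = NZ (T + H) - NZ (T + H - 2) :=
      ncard_Ioc _ _
    have h6 : NZ T ≤ NZ (T + 2) := NZ_mono (by linarith)
    have h7 : NZ (T + H - 2) ≤ NZ (T + H) := NZ_mono (by linarith)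
    have h8 := Pool.Agent.V8H6.GP.NZ_diff (T + 2) (T + H - 2) (by linarith) (by linarith)
    have h9 := Pool.Agent.V8H6.GP.NZ_diff T (T + H) (by linarith) (by linarith)
    have h10 : (SB T (T + H) d).ncard + H370.NN riemannZeta (T + 2) (T + H - 2) ≤
        (SI' U1 U2 d).ncard + H370.NN riemannZeta T (T + H) := by omega
    have h11 : ((SB T (T + H) d).ncard : ℝ) + H370.NN riemannZeta (T + 2) (T + H - 2) ≤
        (SI' U1 U2 d).ncard + H370.NN riemannZeta T (T + H) := by exact_mod_cast h10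
    linarith
  rw [e1]
  set NN0 : ℝ := (H370.NN riemannZeta T (T + H) : ℝ) with hNN0
  set Q : ℝ := QQG g riemannZeta Λ U1 U2 with hQ
  set N1 : ℝ := (H370.NN riemannZeta U1 U2 : ℝ) with hN1
  set I : ℝ := ((SI' U1 U2 d).ncard : ℝ) with hI
  have hI0 : 0 ≤ I := Nat.cast_nonneg _
  have hNN00 : 0 ≤ NN0 := Nat.cast_nonneg _
  have hCL : 0 < C * Real.log T := by positivity
  -- `(2 - 2τ)(1 - τ) I ≤ Q - N1`
  have h1 : (2 - 2 * τ) * (1 - τ) * I ≤ Q - N1 := by
    have a1 : (2 - 2 * τ) * (((m : ℝ) - τ * m) * I) ≤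
        (2 - 4 * (51 / 200 * δ ^ 2)) * (((m : ℝ) - 1) * I) := by
      have b1 : ((m : ℝ) - τ * m) * I ≤ ((m : ℝ) - 1) * I :=
        mul_le_mul_of_nonneg_right (by linarith) hI0
      have b2 : 0 ≤ ((m : ℝ) - τ * m) * I := by
        apply mul_nonneg _ hI0
        nlinarith
      calc (2 - 2 * τ) * (((m : ℝ) - τ * m) * I) ≤
          (2 - 4 * (51 / 200 * δ ^ 2)) * (((m : ℝ) - τ * m) * I) :=
            mul_le_mul_of_nonneg_right (by linarith) b2
        _ ≤ _ := mul_le_mul_of_nonneg_left b1 (by linarith)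
    have a2 : (m : ℝ) * ((2 - 2 * τ) * (1 - τ) * I) ≤ m * (Q - N1) := by
      have : (m : ℝ) * ((2 - 2 * τ) * (1 - τ) * I) = (2 - 2 * τ) * (((m : ℝ) - τ * m) * I) := by
        ring
      rw [this]
      linarith
    exact le_of_mul_le_mul_left a2 hm0
  -- the bound for `Q - N1`
  have h2 : Q - N1 ≤ (cc h - 1 + ε / 2) * NN0 - 2 * C * Real.log T := by
    have : (1 - cc h - ε / 2) * NN0 = -((cc h - 1 + ε / 2) * NN0) := by ring
    rw [this] at hk
    linarith
  have h3 : 2 * (1 - 2 * τ) * I ≤ (cc h - 1 + ε / 2) * NN0 - 2 * C * Real.log T := by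
    have : 2 * (1 - 2 * τ) * I ≤ (2 - 2 * τ) * (1 - τ) * I := by
      apply mul_le_mul_of_nonneg_right _ hI0
      nlinarith
    linarith
  have h4 : (1 - 2 * τ) * ((SB T (T + H) d).ncard : ℝ) ≤ (cc h - 1 + ε / 2) / 2 * NN0 := by
    have a1 : (1 - 2 * τ) * ((SB T (T + H) d).ncard : ℝ) ≤
        (1 - 2 * τ) * (I + C * Real.log T) := mul_le_mul_of_nonneg_left hcard (by linarith)
    have a2 : 0 ≤ τ * (C * Real.log T) := by positivity
    nlinarith
  have h5 : (cc h - 1 + ε / 2) / 2 * NN0 ≤ (1 - 2 * τ) * (((cc h - 1) / 2 + ε) * NN0) := by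
    have : (cc h - 1 + ε / 2) / 2 ≤ (1 - 2 * τ) * ((cc h - 1) / 2 + ε) := by
      have b1 : τ * (cc h - 1) ≤ τ * K := mul_le_mul_of_nonneg_left hcK hτ0.le
      nlinarith
    calc (cc h - 1 + ε / 2) / 2 * NN0 ≤ (1 - 2 * τ) * ((cc h - 1) / 2 + ε) * NN0 :=
          mul_le_mul_of_nonneg_right this hNN00
      _ = _ := by ring
  have h6 : 0 < 1 - 2 * τ := by linarith
  exact le_of_mul_le_mul_left (h4.trans h5) h6

end Pool.Agent.V8H24.NS
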